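import Mathlib

/-!
Local search for the intersection of matroids: the first step of the recursion.
-/

set_option autoImplicit false

namespace Pool.Agent.Helper98.LS

variable {E : Type} [Fintype E] [DecidableEq E]

theorem aug (N : Matroid E) {I J : Finset E} (hI : N.Indep (I : Set E))
    (hJ : N.Indep (J : Set E)) (h : I.card < J.card) :
    ∃ e ∈ J, e ∉ I ∧ N.Indep ((insert e I : Finset E) : Set E) := by
  obtain ⟨e, he, hi⟩ := hI.augment hJ (by
    rw [Set.encard_coe_eq_coe_finsetCard, Set.encard_coe_eq_coe_finsetCard]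
    exact_mod_cast h)
  refine ⟨e, by simpa using he.1, by simpa using he.2, ?_⟩
  rw [Finset.coe_insert]
  exact hi

theorem ext_card (N : Matroid E) {P : Finset E} (hP : N.Indep (P : Set E)) :
    ∀ (n : ℕ) (I : Finset E), N.Indep (I : Set E) → I.card ≤ P.card → P.card - I.card = n →
    ∃ Z : Finset E, I ⊆ Z ∧ Z ⊆ I ∪ P ∧ N.Indep (Z : Set E) ∧ Z.card = P.card := by
  intro n
  induction n with
  | zero =>
    intro I hI hle h0
    exact ⟨I, Finset.Subset.refl _, Finset.subset_union_left, hI, by omega⟩
  | succ n ih =>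
    intro I hI hle h0
    obtain ⟨e, heP, heI, hi⟩ := aug N hI hP (by omega)
    have hc : (insert e I).card = I.card + 1 := Finset.card_insert_of_notMem heI
    obtain ⟨Z, h1, h2, h3, h4⟩ := ih (insert e I) hi (by omega) (by omega)
    refine ⟨Z, fun x hx => h1 (Finset.mem_insert_of_mem hx), ?_, h3, h4⟩
    intro x hx
    have := h2 hx
    simp only [Finset.mem_union, Finset.mem_insert] at this ⊢
    rcases this with (rfl | h) | h
    · exact Or.inr heP
    · exact Or.inl h
    · exact Or.inr h

/-- a maximal set of elements of `S \ B` that can be added to `B` -/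
theorem exists_V (N : Matroid E) {B S : Finset E} (hB : N.Indep (B : Set E))
    (hS : N.Indep (S : Set E)) :
    ∃ V : Finset E, V ⊆ S \ B ∧ N.Indep ((B ∪ V : Finset E) : Set E) ∧
      S.card ≤ (B ∪ V).card ∧
      ∀ e ∈ (S \ B) \ V, ¬ N.Indep ((insert e (B ∪ V) : Finset E) : Set E) := by
  classical
  let A : Finset (Finset E) :=
    (S \ B).powerset.filter fun V => N.Indep ((B ∪ V : Finset E) : Set E)
  have hA : A.Nonempty := ⟨∅, by
    simp only [A, Finset.mem_filter, Finset.mem_powerset]
    exact ⟨Finset.empty_subset _, by simpa using hB⟩⟩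
  obtain ⟨V, hV, hmax⟩ := Finset.exists_max_image A Finset.card hA
  simp only [A, Finset.mem_filter, Finset.mem_powerset] at hV
  have hno : ∀ e ∈ (S \ B) \ V, ¬ N.Indep ((insert e (B ∪ V) : Finset E) : Set E) := by
    intro e he hi
    have he1 := Finset.mem_sdiff.1 he
    have h := hmax (insert e V) (by
      simp only [A, Finset.mem_filter, Finset.mem_powerset]
      refine ⟨Finset.insert_subset he1.1 hV.1, ?_⟩
      rwa [Finset.union_insert])
    rw [Finset.card_insert_of_notMem he1.2] at h
    omega
  refine ⟨V, hV.1, hV.2, ?_, hno⟩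
  by_contra hlt
  obtain ⟨e, heS, heBV, hi⟩ := aug N hV.2 hS (by omega)
  refine hno e ?_ hi
  simp only [Finset.mem_union, not_or] at heBV
  simp [heS, heBV.1, heBV.2]

/-- the exchange set `Y` -/
theorem exists_Y (N : Matroid E) {B S V F : Finset E} (hB : N.Indep (B : Set E))
    (hS : N.Indep (S : Set E)) (hV : V ⊆ S \ B)
    (hBV : N.Indep ((B ∪ V : Finset E) : Set E))
    (hno : ∀ e ∈ (S \ B) \ V, ¬ N.Indep ((insert e (B ∪ V) : Finset E) : Set E))
    (hF : F ⊆ (S \ B) \ V) :
    ∃ Y : Finset E, Y ⊆ B \ S ∧ Y.card = F.card ∧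
      N.Indep (((B \ Y) ∪ V ∪ F : Finset E) : Set E) := by
  have hI : N.Indep ((V ∪ F ∪ (B ∩ S) : Finset E) : Set E) := by
    refine hS.subset ?_
    intro x hx
    simp only [Finset.coe_union, Finset.coe_inter, Set.mem_union, Set.mem_inter_iff,
      Finset.mem_coe] at hx ⊢
    rcases hx with (h | h) | h
    · exact (Finset.mem_sdiff.1 (hV h)).1
    · exact (Finset.mem_sdiff.1 (Finset.mem_sdiff.1 (hF h)).1).1
    · exact h.2
  have hle : (V ∪ F ∪ (B ∩ S)).card ≤ (B ∪ V).card := by
    by_contra hlt
    obtain ⟨e, he, heBV, hi⟩ := aug N hBV hI (by omega)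
    refine hno e ?_ hi
    simp only [Finset.mem_union, Finset.mem_inter, not_or] at he heBV
    rcases he with (h | h) | h
    · exact absurd h heBV.2
    · exact hF h
    · exact absurd h.1 heBV.1
  obtain ⟨Z, h1, h2, h3, h4⟩ := ext_card N hBV _ (V ∪ F ∪ (B ∩ S)) hI hle rfl
  have hZ : (B \ (B \ Z)) ∪ V ∪ F = Z := by
    ext x
    simp only [Finset.mem_union, Finset.mem_sdiff]
    constructor
    · rintro ((⟨hb, hn⟩ | h) | h)
      · by_contra hz
        exact hn ⟨hb, hz⟩
      · exact h1 (by simp [h])
      · exact h1 (by simp [h])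
    · intro hx
      have := h2 hx
      simp only [Finset.mem_union, Finset.mem_inter] at this
      rcases this with ((h | h) | h) | (h | h)
      · exact Or.inl (Or.inr h)
      · exact Or.inr h
      · exact Or.inl (Or.inl ⟨h.1, fun hh => hh.2 hx⟩)
      · exact Or.inl (Or.inl ⟨h, fun hh => hh.2 hx⟩)
      · exact Or.inl (Or.inr h)
  refine ⟨B \ Z, ?_, ?_, by rw [hZ]; exact h3⟩
  · intro x hx
    have hx' := Finset.mem_sdiff.1 hx
    refine Finset.mem_sdiff.2 ⟨hx'.1, fun hs => hx'.2 (h1 ?_)⟩
    simp [hx'.1, hs]
  · have c1 : (B \ (B \ Z)).card + (B \ Z).card = B.card := by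
      have := Finset.card_sdiff_add_card_eq_card (s := B \ Z) (t := B) Finset.sdiff_subset
      exact this
    have d1 : Disjoint B V := by
      rw [Finset.disjoint_left]
      intro x hx hv
      exact (Finset.mem_sdiff.1 (hV hv)).2 hx
    have d2 : Disjoint ((B \ (B \ Z)) ∪ V) F := by
      rw [Finset.disjoint_left]
      intro x hx hf
      have hf' := Finset.mem_sdiff.1 (hF hf)
      rcases Finset.mem_union.1 hx with h | h
      · exact (Finset.mem_sdiff.1 hf'.1).2 (Finset.mem_sdiff.1 h).1
      · exact hf'.2 h
    have d3 : Disjoint (B \ (B \ Z)) V := d1.mono_left Finset.sdiff_subset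
    have c2 : Z.card = (B \ (B \ Z)).card + V.card + F.card := by
      conv_lhs => rw [← hZ]
      rw [Finset.card_union_of_disjoint d2, Finset.card_union_of_disjoint d3]
    have c3 : (B ∪ V).card = B.card + V.card := Finset.card_union_of_disjoint d1
    omega

theorem step1 {k : ℕ} (hk : 2 ≤ k) (M : Fin k → Matroid E) {B S : Finset E}
    (hB : ∀ i, (M i).Indep (B : Set E)) (hS : ∀ i, (M i).Indep (S : Set E)) :
    (∃ X : Finset E, X ⊆ S \ B ∧ X.card ≤ 2 ∧ ∃ B' : Finset E, B' ⊆ B ∪ X ∧
      (∀ i, (M i).Indep (B' : Set E)) ∧ B.card < B'.card) ∨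
    ∃ F Y : Fin k → Finset E, (∀ l m, l ≠ m → Disjoint (F l) (F m)) ∧
      (∀ l m, l ≠ m → Disjoint (Y l) (Y m)) ∧ (∀ l, Y l ⊆ B \ S) ∧ (∀ l, F l ⊆ S \ B) ∧
      (∀ l, (Y l).card = (F l).card) ∧
      (∀ l, (M l).Indep ((B ∪ (Finset.univ.biUnion F \ F l) : Finset E) : Set E)) ∧
      (∀ l, (M l).Indep (((B \ Y l) ∪ Finset.univ.biUnion F : Finset E) : Set E)) ∧
      2 * S.card ≤ k * B.card + (Finset.univ.biUnion F).card := by
  classical
  by_cases hex : ∃ X : Finset E, X ⊆ S \ B ∧ X.card ≤ 2 ∧ ∃ B' : Finset E, B' ⊆ B ∪ X ∧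
      (∀ i, (M i).Indep (B' : Set E)) ∧ B.card < B'.card
  · exact Or.inl hex
  right
  have hV := fun l => exists_V (M l) (hB l) (hS l)
  choose V hVs hVi hVc hVn using hV
  let D : Fin k → Finset E := fun l => (S \ B) \ V l
  let c : E → ℕ := fun e => (Finset.univ.filter fun l => e ∈ D l).card
  let F : Fin k → Finset E := fun l => (D l).filter fun e => c e = 1
  have hFD : ∀ l, F l ⊆ (S \ B) \ V l := fun l => Finset.filter_subset _ _
  have hFV : ∀ l m e, l ≠ m → e ∈ F l → e ∈ V m := by
    intro l m e hlm he
    have he1 := Finset.mem_filter.1 he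
    by_contra hm
    have hmD : e ∈ D m := Finset.mem_sdiff.2 ⟨(Finset.mem_sdiff.1 he1.1).1, hm⟩
    have h2 : 1 < (Finset.univ.filter fun l => e ∈ D l).card :=
      Finset.one_lt_card.2 ⟨l, by simp [he1.1], m, by simp [hmD], hlm⟩
    have h3 : (Finset.univ.filter fun l => e ∈ D l).card = 1 := he1.2
    omega
  have hY := fun l => exists_Y (M l) (hB l) (hS l) (hVs l) (hVi l) (hVn l) (hFD l)
  choose Y hYs hYc hYi using hY
  have hFd : ∀ l m, l ≠ m → Disjoint (F l) (F m) := by
    intro l m hlm
    rw [Finset.disjoint_left]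
    intro e hl hm
    exact (Finset.mem_sdiff.1 (hFD m hm)).2 (hFV l m e hlm hl)
  -- an element of `F l` replaces `y`
  have hrep : ∀ l y, y ∈ Y l → ∃ e ∈ F l,
      (M l).Indep ((insert e ((B ∪ V l).erase y) : Finset E) : Set E) := by
    intro l y hy
    have hyB : y ∈ B := (Finset.mem_sdiff.1 (hYs l hy)).1
    have hyP : y ∈ B ∪ V l := Finset.mem_union_left _ hyB
    have h1 : (M l).Indep (((B ∪ V l).erase y : Finset E) : Set E) :=
      (hVi l).subset (Finset.coe_subset.2 (Finset.erase_subset _ _))
    have dBV : Disjoint B (V l) := by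
      rw [Finset.disjoint_left]
      intro x hx hv
      exact (Finset.mem_sdiff.1 (hVs l hv)).2 hx
    have d2 : Disjoint ((B \ Y l) ∪ V l) (F l) := by
      rw [Finset.disjoint_left]
      intro x hx hf
      have hf' := Finset.mem_sdiff.1 (hFD l hf)
      rcases Finset.mem_union.1 hx with h | h
      · exact (Finset.mem_sdiff.1 hf'.1).2 (Finset.mem_sdiff.1 h).1
      · exact hf'.2 h
    have c1 : (B \ Y l).card + (Y l).card = B.card :=
      Finset.card_sdiff_add_card_eq_card ((hYs l).trans Finset.sdiff_subset)
    have c2 : ((B \ Y l) ∪ V l ∪ F l).card = (B \ Y l).card + (V l).card + (F l).card := by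
      rw [Finset.card_union_of_disjoint d2,
        Finset.card_union_of_disjoint (dBV.mono_left Finset.sdiff_subset)]
    have c3 : (B ∪ V l).card = B.card + (V l).card := Finset.card_union_of_disjoint dBV
    have c4 : ((B ∪ V l).erase y).card + 1 = (B ∪ V l).card := Finset.card_erase_add_one hyP
    have c5 := hYc l
    obtain ⟨e, he, hen, hi⟩ := aug (M l) h1 (hYi l) (by omega)
    refine ⟨e, ?_, hi⟩
    rcases Finset.mem_union.1 he with h | h
    · exfalso
      apply hen
      rcases Finset.mem_union.1 h with h' | h'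
      · have h'' := Finset.mem_sdiff.1 h'
        exact Finset.mem_erase.2 ⟨fun hxy => h''.2 (hxy ▸ hy), Finset.mem_union_left _ h''.1⟩
      · have hne : e ≠ y := fun hxy => by
          rw [hxy] at h'
          exact (Finset.mem_sdiff.1 (hVs l h')).2 hyB
        exact Finset.mem_erase.2 ⟨hne, Finset.mem_union_right _ h'⟩
    · exact h
  have hYd : ∀ l m, l ≠ m → Disjoint (Y l) (Y m) := by
    intro l m hlm
    rw [Finset.disjoint_left]
    intro y hl hm
    apply hex
    obtain ⟨e, he, hei⟩ := hrep l y hl
    obtain ⟨e', he', hei'⟩ := hrep m y hm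
    have heS := Finset.mem_sdiff.1 (Finset.mem_sdiff.1 (hFD l he)).1
    have heS' := Finset.mem_sdiff.1 (Finset.mem_sdiff.1 (hFD m he')).1
    have hne : e ≠ e' := by
      rintro rfl
      exact Finset.disjoint_left.1 (hFd l m hlm) he he'
    have hyB : y ∈ B := (Finset.mem_sdiff.1 (hYs l hl)).1
    refine ⟨{e, e'}, ?_, Finset.card_le_two, insert e (insert e' (B.erase y)), ?_, ?_, ?_⟩
    · intro x hx
      simp only [Finset.mem_insert, Finset.mem_singleton] at hx
      rcases hx with rfl | rfl
      · exact Finset.mem_sdiff.2 heS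
      · exact Finset.mem_sdiff.2 heS'
    · intro x hx
      simp only [Finset.mem_insert, Finset.mem_erase] at hx
      simp only [Finset.mem_union, Finset.mem_insert, Finset.mem_singleton]
      tauto
    · intro i
      by_cases hil : i = l
      · subst hil
        refine hei.subset (Finset.coe_subset.2 ?_)
        intro x hx
        have h5 : e' ∈ V i := hFV m i e' (Ne.symm hlm) he'
        have h6 : e' ≠ y := fun hxy => heS'.2 (hxy ▸ hyB)
        simp only [Finset.mem_insert, Finset.mem_erase] at hx
        simp only [Finset.mem_insert, Finset.mem_erase, Finset.mem_union]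
        rcases hx with rfl | rfl | hx
        · exact Or.inl rfl
        · exact Or.inr ⟨h6, Or.inr h5⟩
        · exact Or.inr ⟨hx.1, Or.inl hx.2⟩
      · by_cases him : i = m
        · subst him
          refine hei'.subset (Finset.coe_subset.2 ?_)
          intro x hx
          have h5 : e ∈ V i := hFV l i e hlm he
          have h6 : e ≠ y := fun hxy => heS.2 (hxy ▸ hyB)
          simp only [Finset.mem_insert, Finset.mem_erase] at hx
          simp only [Finset.mem_insert, Finset.mem_erase, Finset.mem_union]
          rcases hx with rfl | rfl | hx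
          · exact Or.inr ⟨h6, Or.inr h5⟩
          · exact Or.inl rfl
          · exact Or.inr ⟨hx.1, Or.inl hx.2⟩
        · refine (hVi i).subset (Finset.coe_subset.2 ?_)
          intro x hx
          have h5 : e ∈ V i := hFV l i e (Ne.symm hil) he
          have h6 : e' ∈ V i := hFV m i e' (Ne.symm him) he'
          simp only [Finset.mem_insert, Finset.mem_erase] at hx
          simp only [Finset.mem_union]
          rcases hx with rfl | rfl | hx
          · exact Or.inr h5
          · exact Or.inr h6
          · exact Or.inl hx.2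
    · have h7 : e' ∉ B.erase y := fun h => heS'.2 (Finset.mem_of_mem_erase h)
      have h8 : e ∉ insert e' (B.erase y) := by
        rw [Finset.mem_insert, not_or]
        exact ⟨hne, fun h => heS.2 (Finset.mem_of_mem_erase h)⟩
      have h9 := Finset.card_erase_add_one hyB
      rw [Finset.card_insert_of_notMem h8, Finset.card_insert_of_notMem h7]
      omega
  refine ⟨F, Y, hFd, hYd, hYs, fun l => (hFD l).trans Finset.sdiff_subset, hYc, ?_, ?_, ?_⟩
  · intro l
    refine (hVi l).subset (Finset.coe_subset.2 ?_)
    intro x hx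
    rcases Finset.mem_union.1 hx with h | h
    · exact Finset.mem_union_left _ h
    · obtain ⟨h1, h2⟩ := Finset.mem_sdiff.1 h
      obtain ⟨m, -, hm⟩ := Finset.mem_biUnion.1 h1
      have hml : m ≠ l := fun hml => h2 (hml ▸ hm)
      exact Finset.mem_union_right _ (hFV m l x hml hm)
  · intro l
    refine (hYi l).subset (Finset.coe_subset.2 ?_)
    intro x hx
    rcases Finset.mem_union.1 hx with h | h
    · exact Finset.mem_union_left _ (Finset.mem_union_left _ h)
    · obtain ⟨m, -, hm⟩ := Finset.mem_biUnion.1 h
      by_cases hml : m = l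
      · subst hml
        exact Finset.mem_union_right _ hm
      · exact Finset.mem_union_left _ (Finset.mem_union_right _ (hFV m l x hml hm))
  · -- counting
    have hc1 : ∀ e ∈ S \ B, 1 ≤ c e := by
      intro e he
      by_contra h0
      have h0' : (Finset.univ.filter fun l => e ∈ D l).card = 0 := by
        have : c e = 0 := by omega
        exact this
      rw [Finset.card_eq_zero, Finset.filter_eq_empty_iff] at h0'
      apply hex
      refine ⟨{e}, by simpa using he, by simp, insert e B, ?_, ?_, ?_⟩
      · intro x hx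
        simp only [Finset.mem_insert] at hx
        simp only [Finset.mem_union, Finset.mem_singleton]
        tauto
      · intro i
        have hi : e ∈ V i := by
          by_contra hn
          exact h0' (Finset.mem_univ i) (Finset.mem_sdiff.2 ⟨he, hn⟩)
        refine (hVi i).subset (Finset.coe_subset.2 ?_)
        intro x hx
        rcases Finset.mem_insert.1 hx with rfl | h
        · exact Finset.mem_union_right _ hi
        · exact Finset.mem_union_left _ h
      · rw [Finset.card_insert_of_notMem (Finset.mem_sdiff.1 he).2]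
        omega
    have hsum : ∑ e ∈ S \ B, c e = ∑ l, (D l).card := by
      have h1 : ∀ e, c e = ∑ l : Fin k, if e ∈ D l then 1 else 0 := fun e => by
        simp only [c, Finset.card_filter]
      have h2 : ∀ l, (D l).card = ∑ e ∈ S \ B, if e ∈ D l then 1 else 0 := by
        intro l
        rw [← Finset.card_filter]
        congr 1
        ext x
        simp only [D, Finset.mem_filter, Finset.mem_sdiff]
        tauto
      rw [Finset.sum_congr rfl fun e _ => h1 e, Finset.sum_congr rfl fun l _ => h2 l,
        Finset.sum_comm]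
    have hD : ∀ l, (D l).card ≤ (B \ S).card := by
      intro l
      have d1 : Disjoint B (V l) := by
        rw [Finset.disjoint_left]
        intro x hx hv
        exact (Finset.mem_sdiff.1 (hVs l hv)).2 hx
      have c3 : (B ∪ V l).card = B.card + (V l).card := Finset.card_union_of_disjoint d1
      have c4 : (D l).card + (V l).card = (S \ B).card :=
        Finset.card_sdiff_add_card_eq_card (hVs l)
      have c5 := Finset.card_sdiff_add_card_inter S B
      have c6 := Finset.card_sdiff_add_card_inter B S
      rw [Finset.inter_comm] at c6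
      have := hVc l
      omega
    have hsum2 : ∑ l, (D l).card ≤ k * (B \ S).card := by
      calc ∑ l, (D l).card ≤ ∑ _l : Fin k, (B \ S).card := Finset.sum_le_sum fun l _ => hD l
        _ = k * (B \ S).card := by simp
    have hUF : Finset.univ.biUnion F ⊆ S \ B := by
      intro x hx
      obtain ⟨m, -, hm⟩ := Finset.mem_biUnion.1 hx
      exact (Finset.mem_sdiff.1 (hFD m hm)).1
    have hn : (Finset.univ.biUnion F).card =
        ∑ e ∈ S \ B, if e ∈ Finset.univ.biUnion F then 1 else 0 := by
      rw [← Finset.card_filter]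
      congr 1
      ext x
      rw [Finset.mem_filter]
      exact ⟨fun h => ⟨hUF h, h⟩, fun h => h.2⟩
    have hlow : 2 * (S \ B).card ≤
        ∑ e ∈ S \ B, c e + (Finset.univ.biUnion F).card := by
      rw [hn, ← Finset.sum_add_distrib]
      have h3 : 2 * (S \ B).card = ∑ _e ∈ S \ B, 2 := by simp [mul_comm]
      rw [h3]
      refine Finset.sum_le_sum fun e he => ?_
      have h4 := hc1 e he
      by_cases h5 : c e = 1
      · have h6 : e ∈ Finset.univ.biUnion F := by
          have h7 : (Finset.univ.filter fun l => e ∈ D l).card = 1 := h5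
          obtain ⟨l, hl⟩ := Finset.card_eq_one.1 h7
          have h8 : l ∈ Finset.univ.filter fun l => e ∈ D l := by rw [hl]; simp
          exact Finset.mem_biUnion.2 ⟨l, Finset.mem_univ _,
            Finset.mem_filter.2 ⟨(Finset.mem_filter.1 h8).2, h5⟩⟩
        rw [if_pos h6]
        omega
      · omega
    have c5 := Finset.card_sdiff_add_card_inter S B
    have c6 := Finset.card_sdiff_add_card_inter B S
    rw [Finset.inter_comm] at c6
    have c7 : 2 * (S ∩ B).card ≤ k * (S ∩ B).card := Nat.mul_le_mul_right _ hk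
    have c8 : k * B.card = k * (B \ S).card + k * (S ∩ B).card := by
      rw [← mul_add, c6]
    omega

end Pool.Agent.Helper98.LS
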