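import Pool.Agent.Helper98.LS.Step1
import Pool.Agent.Helper69.LS2.Lift
import Pool.Agent.Helper60.LS.Num

/-!
Local search for the intersection of `k` matroids: exchanges of bounded size reach the ratio
`k / 2 + d`.
-/

set_option autoImplicit false

namespace Pool.Agent.Helper98.LS

/-- `s`-exchanges reach the ratio `b` -/
def LS (k : ℕ) (b : ℝ) (s : ℕ) : Prop :=
  ∀ (E : Type) [Fintype E] [DecidableEq E] (M : Fin k → Matroid E) (B S : Finset E),
    (∀ i, (M i).Indep (B : Set E)) → (∀ i, (M i).Indep (S : Set E)) →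
    b * (B.card : ℝ) < (S.card : ℝ) →
    ∃ X : Finset E, X ⊆ S \ B ∧ X.card ≤ s ∧ ∃ B' : Finset E, B' ⊆ B ∪ X ∧
      (∀ i, (M i).Indep (B' : Set E)) ∧ B.card < B'.card

theorem LS_base {k : ℕ} (hk : 2 ≤ k) : LS k (k : ℝ) 2 := by
  intro E _ _ M B S hB hS hlt
  rcases step1 hk M hB hS with h | ⟨F, Y, -, -, -, hF, -, -, -, hcount⟩
  · exact h
  · exfalso
    have h1 : (Finset.univ.biUnion F).card ≤ S.card := by
      refine Finset.card_le_card (Finset.biUnion_subset.2 fun l _ => ?_)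
      exact (hF l).trans Finset.sdiff_subset
    have h2 : S.card ≤ k * B.card := by omega
    have h3 : (S.card : ℝ) ≤ (k : ℝ) * B.card := by exact_mod_cast h2
    linarith

theorem LS_step {k : ℕ} (hk : 2 ≤ k) {b : ℝ} (hb : (k : ℝ) / 2 ≤ b) {s : ℕ} (hs : 2 ≤ s)
    (h : LS k b s) : LS k ((((k : ℝ) + 1) * b - k) / (2 * b - 1)) ((2 * k + 1) * s) := by
  intro E _ _ M B S hB hS hlt
  rcases step1 hk M hB hS with ⟨X, h1, h2, h3⟩ | ⟨F, Y, hFd, hYd, hYs, hFs, hYc, hi1, hi2, hcount⟩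
  · refine ⟨X, h1, le_trans h2 ?_, h3⟩
    nlinarith
  have hkR : (2 : ℝ) ≤ k := by exact_mod_cast hk
  have hb1 : 1 ≤ b := by linarith
  obtain ⟨UF, hUF⟩ : ∃ UF : Finset E, UF = Finset.univ.biUnion F := ⟨_, rfl⟩
  obtain ⟨UY, hUY⟩ : ∃ UY : Finset E, UY = Finset.univ.biUnion Y := ⟨_, rfl⟩
  rw [← hUF] at hcount
  have hUFS : UF ⊆ S \ B := by
    rw [hUF]; exact Finset.biUnion_subset.2 fun l _ => hFs l
  have hUYB : UY ⊆ B \ S := by
    rw [hUY]; exact Finset.biUnion_subset.2 fun l _ => hYs l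
  have hcard : UY.card = UF.card := by
    rw [hUF, hUY, Finset.card_biUnion fun l _ m _ hlm => hFd l m hlm,
      Finset.card_biUnion fun l _ m _ hlm => hYd l m hlm]
    exact Finset.sum_congr rfl fun l _ => hYc l
  have cB : (B \ UY).card + UY.card = B.card :=
    Finset.card_sdiff_add_card_eq_card (hUYB.trans Finset.sdiff_subset)
  have cS : (S \ UF).card + UF.card = S.card :=
    Finset.card_sdiff_add_card_eq_card (hUFS.trans Finset.sdiff_subset)
  -- the bound in the contraction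
  have hlt1 : b * ((B \ UY).card : ℝ) < ((S \ UF).card : ℝ) := by
    by_contra hcon
    push Not at hcon
    have e1 : ((B \ UY).card : ℝ) + UF.card = B.card := by
      rw [← hcard]; exact_mod_cast cB
    have e2 : ((S \ UF).card : ℝ) + UF.card = S.card := by exact_mod_cast cS
    have e3 : 2 * (S.card : ℝ) ≤ (k : ℝ) * B.card + UF.card := by exact_mod_cast hcount
    have hpos : 0 < 2 * b - 1 := by linarith
    rw [div_mul_eq_mul_div, div_lt_iff₀ hpos] at hlt
    have e4 : (b - 1) * (2 * (S.card : ℝ) - (k : ℝ) * B.card) ≤ (b - 1) * UF.card :=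
      mul_le_mul_of_nonneg_left (by linarith) (by linarith)
    have e5 : ((B \ UY).card : ℝ) = B.card - UF.card := by linarith
    have e6 : ((S \ UF).card : ℝ) = S.card - UF.card := by linarith
    rw [e5, e6] at hcon
    nlinarith
  have hindF : ∀ l, (M l).Indep (UF : Set E) := fun l =>
    (hS l).subset (Finset.coe_subset.2 (hUFS.trans Finset.sdiff_subset))
  have hN1 : ∀ l, ((M l).contract (UF : Set E)).Indep ((B \ UY : Finset E) : Set E) := by
    intro l
    rw [(hindF l).contract_indep_iff]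
    constructor
    · rw [Finset.disjoint_coe, Finset.disjoint_left]
      intro x hx hf
      exact (Finset.mem_sdiff.1 (hUFS hf)).2 (Finset.mem_sdiff.1 hx).1
    · refine (hi2 l).subset ?_
      rw [← hUF, ← Finset.coe_union, Finset.coe_subset]
      intro x hx
      rcases Finset.mem_union.1 hx with h4 | h4
      · refine Finset.mem_union_left _ (Finset.mem_sdiff.2 ⟨(Finset.mem_sdiff.1 h4).1, ?_⟩)
        intro hy
        refine (Finset.mem_sdiff.1 h4).2 ?_
        rw [hUY]
        exact Finset.mem_biUnion.2 ⟨l, Finset.mem_univ _, hy⟩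
      · exact Finset.mem_union_right _ h4
  have hN2 : ∀ l, ((M l).contract (UF : Set E)).Indep ((S \ UF : Finset E) : Set E) := by
    intro l
    rw [(hindF l).contract_indep_iff]
    constructor
    · rw [Finset.disjoint_coe]
      exact Finset.sdiff_disjoint
    · refine (hS l).subset ?_
      rw [← Finset.coe_union, Finset.coe_subset]
      intro x hx
      rcases Finset.mem_union.1 hx with h4 | h4
      · exact (Finset.mem_sdiff.1 h4).1
      · exact (Finset.mem_sdiff.1 (hUFS h4)).1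
  obtain ⟨X, hX, hXs, B2, hB2, hB2i, hB2c⟩ :=
    h E (fun l => (M l).contract (UF : Set E)) (B \ UY) (S \ UF) hN1 hN2 hlt1
  obtain ⟨W, hW⟩ : ∃ W : Finset E, W = (B \ UY) \ B2 := ⟨_, rfl⟩
  obtain ⟨X1, hX1⟩ : ∃ X1 : Finset E, X1 = B2 \ (B \ UY) := ⟨_, rfl⟩
  have hX1X : X1 ⊆ X := by
    rw [hX1]
    intro x hx
    obtain ⟨h4, h5⟩ := Finset.mem_sdiff.1 hx
    rcases Finset.mem_union.1 (hB2 h4) with h6 | h6
    · exact absurd h6 h5
    · exact h6
  have hX1S : X1 ⊆ S \ UF := hX1X.trans (hX.trans Finset.sdiff_subset)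
  have hX1B : Disjoint X1 B := by
    rw [Finset.disjoint_left]
    intro x hx hb'
    have h4 : x ∈ S := (Finset.mem_sdiff.1 (hX1S hx)).1
    have h5 : x ∉ UY := fun hy => (Finset.mem_sdiff.1 (hUYB hy)).2 h4
    rw [hX1] at hx
    exact (Finset.mem_sdiff.1 hx).2 (Finset.mem_sdiff.2 ⟨hb', h5⟩)
  have hB2eq : ((B \ UY) \ W) ∪ X1 = B2 := by
    ext x
    rw [hW, hX1]
    simp only [Finset.mem_union, Finset.mem_sdiff]
    tauto
  have hWX : W.card < X1.card := by
    have c1 := Finset.card_sdiff_add_card_inter (B \ UY) B2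
    have c2 := Finset.card_sdiff_add_card_inter B2 (B \ UY)
    rw [Finset.inter_comm] at c2
    rw [← hW] at c1
    rw [← hX1] at c2
    omega
  obtain ⟨X2, hX2, hX2c, B', hB', hB'i, hB'c⟩ := Pool.Agent.Helper69.LS2.lift M (B := B)
    (X := X1) (W := W) (F := UF) (Y := UY) F Y hUF hUY hFd hYd
    (fun l => (hYs l).trans Finset.sdiff_subset) hYc
    (fun l => by
      rw [Finset.disjoint_left]
      intro x hx hb'
      exact (Finset.mem_sdiff.1 (hFs l hx)).2 hb')
    hX1B
    (fun l => by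
      rw [Finset.disjoint_left]
      intro x hx hf
      refine (Finset.mem_sdiff.1 (hX1S hx)).2 ?_
      rw [hUF]
      exact Finset.mem_biUnion.2 ⟨l, Finset.mem_univ _, hf⟩)
    (fun l => by rw [hUF]; exact hi1 l)
    (fun l => by rw [hUF]; exact hi2 l)
    (by rw [hW]; exact Finset.sdiff_subset)
    (fun l => by
      rw [hB2eq]
      have h4 := hB2i l
      rw [(hindF l).contract_indep_iff] at h4
      rw [Finset.coe_union]
      exact h4.2)
    hWX
  refine ⟨X2, ?_, ?_, B', hB', hB'i, hB'c⟩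
  · intro x hx
    rcases Finset.mem_union.1 (hX2 hx) with h4 | h4
    · exact Finset.mem_sdiff.2 ⟨(Finset.mem_sdiff.1 (hX1S h4)).1,
        fun hb' => Finset.disjoint_left.1 hX1B h4 hb'⟩
    · exact hUFS h4
  · refine le_trans hX2c (Nat.mul_le_mul_left _ ?_)
    exact le_trans (Finset.card_le_card hX1X) hXs

theorem LS_bet {k : ℕ} (hk : 2 ≤ k) (j : ℕ) :
    LS k (Pool.Agent.Helper60.LS.bet (k : ℝ) j) ((2 * k + 1) ^ j * 2) := by
  have hkR : (2 : ℝ) ≤ k := by exact_mod_cast hk
  induction j with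
  | zero =>
    rw [Pool.Agent.Helper60.LS.bet_zero]
    simpa using LS_base hk
  | succ j ih =>
    rw [Pool.Agent.Helper60.LS.bet_succ]
    have h1 : 1 ≤ (2 * k + 1) ^ j := Nat.one_le_pow _ _ (by omega)
    have h2 := LS_step hk (Pool.Agent.Helper60.LS.bet_ge hkR j) (by omega) ih
    rw [pow_succ, mul_comm ((2 * k + 1) ^ j) (2 * k + 1), mul_assoc]
    exact h2

/-- local search with exchanges of bounded size for `k` arbitrary matroids -/
theorem local_search {k : ℕ} (hk : 2 ≤ k) {d : ℝ} (hd : 0 < d) :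
    ∃ s : ℕ, 1 ≤ s ∧ ∀ (E : Type) [Fintype E] [DecidableEq E] (M : Fin k → Matroid E)
      (B S : Finset E), (∀ i, (M i).Indep (B : Set E)) → (∀ i, (M i).Indep (S : Set E)) →
      ((k : ℝ) / 2 + d) * (B.card : ℝ) < (S.card : ℝ) →
      ∃ X : Finset E, X ⊆ S \ B ∧ X.card ≤ s ∧ ∃ B' : Finset E, B' ⊆ B ∪ X ∧
        (∀ i, (M i).Indep (B' : Set E)) ∧ B.card < B'.card := by
  have hkR : (2 : ℝ) ≤ k := by exact_mod_cast hk
  obtain ⟨j, hj⟩ := Pool.Agent.Helper60.LS.bet_lim hkR hd
  refine ⟨(2 * k + 1) ^ j * 2, ?_, ?_⟩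
  · have h1 : 1 ≤ (2 * k + 1) ^ j := Nat.one_le_pow _ _ (by omega)
    omega
  · intro E _ _ M B S hB hS hlt
    refine LS_bet hk j E M B S hB hS (lt_of_le_of_lt ?_ hlt)
    exact mul_le_mul_of_nonneg_right hj (Nat.cast_nonneg _)

end Pool.Agent.Helper98.LS
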